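import Pool.Agent.W940.LSD.Stm

/-!
# Project LS, part DENS: the second moment of the character sum
-/

set_option autoImplicit false

namespace Pool.Agent.W870.LSD

open Finset Filter Pool.Agent.W307.LS Pool.Agent.W940.LSD

open scoped Classical

/-- the number of terms of an arithmetic progression in an interval -/
theorem cnt (T : ℕ) (a : ℤ) (m : ℕ) (hm : 0 < m) :
    |(((Icc (-(T : ℤ)) T).filter (fun b => (m : ℤ) ∣ a - b)).card : ℝ)
      - (2 * (T : ℝ) + 1) / m| ≤ 1 := by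
  have h1 : (Icc (-(T : ℤ)) T).filter (fun b => (m : ℤ) ∣ a - b)
      = (Ioc (-(T : ℤ) - 1) T).filter (fun b => b ≡ a [ZMOD m]) := by
    ext b
    simp only [mem_filter, mem_Icc, mem_Ioc, Int.modEq_iff_dvd]
    constructor
    · rintro ⟨⟨h1, h2⟩, h3⟩
      exact ⟨⟨by omega, h2⟩, h3⟩
    · rintro ⟨⟨h1, h2⟩, h3⟩
      exact ⟨⟨by omega, h2⟩, h3⟩
  have h2 := Int.Ioc_filter_modEq_card (-(T : ℤ) - 1) T (r := (m : ℤ)) (by exact_mod_cast hm) a
  rw [h1]
  set c : ℕ := ((Ioc (-(T : ℤ) - 1) (T : ℤ)).filter (fun b => b ≡ a [ZMOD m])).card with hc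
  have hm' : (0 : ℚ) < m := by exact_mod_cast hm
  set x : ℚ := (((T : ℤ) : ℚ) - a) / ((m : ℤ) : ℚ) with hx
  set z : ℚ := (((-(T : ℤ) - 1 : ℤ) : ℚ) - a) / ((m : ℤ) : ℚ) with hz
  have hxz : x - z = (2 * (T : ℚ) + 1) / m := by
    rw [hx, hz]
    push_cast
    field_simp
    ring
  have e1 : (c : ℤ) = max (⌊x⌋ - ⌊z⌋) 0 := h2
  have f1 := Int.floor_le x
  have f2 := Int.lt_floor_add_one x
  have f3 := Int.floor_le z
  have f4 := Int.lt_floor_add_one z
  have hpos : 0 ≤ (2 * (T : ℚ) + 1) / m := by positivity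
  have key : |(c : ℚ) - (2 * (T : ℚ) + 1) / m| ≤ 1 := by
    have g1 : ((⌊x⌋ : ℤ) : ℚ) - ((⌊z⌋ : ℤ) : ℚ) ≤ (c : ℚ) := by
      have : ⌊x⌋ - ⌊z⌋ ≤ (c : ℤ) := by
        rw [e1]
        exact le_max_left _ _
      exact_mod_cast this
    have g2 : (c : ℚ) ≤ 1 + (2 * (T : ℚ) + 1) / m := by
      rcases le_total (⌊x⌋ - ⌊z⌋) 0 with h | h
      · rw [max_eq_right h] at e1
        have : (c : ℚ) = 0 := by exact_mod_cast e1
        rw [this]
        linarith
      · rw [max_eq_left h] at e1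
        have : (c : ℚ) = ((⌊x⌋ : ℤ) : ℚ) - ((⌊z⌋ : ℤ) : ℚ) := by exact_mod_cast e1
        rw [this]
        linarith
    rw [abs_le]
    constructor <;> linarith
  have key' : ((|(c : ℚ) - (2 * (T : ℚ) + 1) / m| : ℚ) : ℝ) ≤ 1 := by exact_mod_cast key
  push_cast at key'
  exact key'

/-- a complete period -/
theorem period (m : ℕ) [NeZero m] (g : ZMod m → ℝ) (A : ℤ) :
    ∑ x ∈ Ico A (A + m), g (x : ZMod m) = ∑ w : ZMod m, g w := by
  refine Finset.sum_nbij (fun x : ℤ => (x : ZMod m)) (fun x _ => mem_univ _) ?_ ?_ (fun x _ => rfl)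
  · intro x hx y hy hxy
    simp only [coe_Ico, Set.mem_Ico] at hx hy
    have h1 : (x : ZMod m) = (y : ZMod m) := hxy
    rw [ZMod.intCast_eq_intCast_iff] at h1
    have h2 := h1.dvd
    have h3 : |y - x| < (m : ℤ) := by
      rw [abs_lt]
      constructor <;> linarith
    have h4 := Int.eq_zero_of_abs_lt_dvd h2 h3
    linarith
  · intro w _
    refine ⟨A + ((w - (A : ZMod m)).val : ℤ), ?_, ?_⟩
    · simp only [coe_Ico, Set.mem_Ico]
      have h1 := ZMod.val_lt (w - (A : ZMod m))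
      constructor
      · have : (0 : ℤ) ≤ ((w - (A : ZMod m)).val : ℤ) := Int.natCast_nonneg _
        linarith
      · have : (((w - (A : ZMod m)).val : ℕ) : ℤ) < (m : ℤ) := by exact_mod_cast h1
        linarith
    · simp

/-- the sum of a periodic function with mean zero over an interval -/
theorem interval (m : ℕ) [NeZero m] (g : ZMod m → ℝ) (h1 : ∀ w, |g w| ≤ 1)
    (h0 : ∑ w : ZMod m, g w = 0) (n : ℕ) :
    ∀ A : ℤ, |∑ x ∈ Ico A (A + n), g (x : ZMod m)| ≤ m := by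
  induction n using Nat.strong_induction_on with
  | _ n ih =>
    intro A
    rcases lt_or_ge n m with hn | hn
    · calc |∑ x ∈ Ico A (A + n), g (x : ZMod m)| ≤ ∑ x ∈ Ico A (A + n), |g (x : ZMod m)| :=
            Finset.abs_sum_le_sum_abs _ _
        _ ≤ ∑ x ∈ Ico A (A + n), (1 : ℝ) := Finset.sum_le_sum (fun x _ => h1 _)
        _ = n := by simp
        _ ≤ m := by exact_mod_cast hn.le
    · have hm : 0 < m := Nat.pos_of_ne_zero (NeZero.ne m)
      have e0 : Ico A (A + (n : ℤ)) = Ico A (A + (m : ℤ)) ∪ Ico (A + (m : ℤ)) (A + (n : ℤ)) := by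
        rw [Finset.Ico_union_Ico_eq_Ico]
        · have : (0 : ℤ) ≤ (m : ℤ) := Int.natCast_nonneg m
          linarith
        · have : (m : ℤ) ≤ n := by exact_mod_cast hn
          linarith
      rw [e0, Finset.sum_union (Finset.Ico_disjoint_Ico_consecutive _ _ _), period, h0, zero_add]
      have e2 := ih (n - m) (by omega) (A + m)
      have e3 : A + (m : ℤ) + ((n - m : ℕ) : ℤ) = A + n := by
        push_cast [Nat.cast_sub hn]
        ring
      rw [e3] at e2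
      exact e2

/-- the sum of the product of two Legendre symbols over an interval -/
theorem charsum (p q : ℕ) (hp : p.Prime) (hq : q.Prime) (hp2 : p ≠ 2) (hq2 : q ≠ 2) (hpq : p ≠ q)
    (T : ℕ) :
    |∑ a ∈ Icc (-(T : ℤ)) T, ((jacobiSym a p : ℤ) : ℝ) * ((jacobiSym a q : ℤ) : ℝ)|
      ≤ ((p * q : ℕ) : ℝ) := by
  have : Fact p.Prime := ⟨hp⟩
  have : Fact q.Prime := ⟨hq⟩
  have : NeZero (p * q) := ⟨Nat.mul_ne_zero hp.ne_zero hq.ne_zero⟩
  have hco : Nat.Coprime p q := (Nat.coprime_primes hp hq).2 hpq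
  set e := ZMod.chineseRemainder hco with he
  set g : ZMod (p * q) → ℝ := fun w =>
    ((quadraticChar (ZMod p) (e w).1 : ℤ) : ℝ) * ((quadraticChar (ZMod q) (e w).2 : ℤ) : ℝ) with hg
  have hq1 : ∀ (r : ℕ) [Fact r.Prime] (w : ZMod r), |((quadraticChar (ZMod r) w : ℤ) : ℝ)| ≤ 1 := by
    intro r _ w
    rcases eq_or_ne w 0 with h | h
    · rw [h]
      simp
    · rcases quadraticChar_dichotomy h with h' | h' <;> rw [h'] <;> simp
  have h1 : ∀ w, |g w| ≤ 1 := by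
    intro w
    rw [hg]
    simp only [abs_mul]
    exact mul_le_one₀ (hq1 p _) (abs_nonneg _) (hq1 q _)
  have h0 : ∑ w : ZMod (p * q), g w = 0 := by
    have e1 : ∑ w : ZMod (p * q), g w = ∑ v : ZMod p × ZMod q,
        ((quadraticChar (ZMod p) v.1 : ℤ) : ℝ) * ((quadraticChar (ZMod q) v.2 : ℤ) : ℝ) :=
      Equiv.sum_comp e.toEquiv (fun v : ZMod p × ZMod q =>
        ((quadraticChar (ZMod p) v.1 : ℤ) : ℝ) * ((quadraticChar (ZMod q) v.2 : ℤ) : ℝ))
    rw [e1, Fintype.sum_prod_type]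
    simp only [← Finset.mul_sum]
    rw [← Finset.sum_mul]
    have e2 : ∑ v : ZMod p, ((quadraticChar (ZMod p) v : ℤ) : ℝ) = 0 := by
      have := quadraticChar_sum_zero (F := ZMod p) (by rw [ZMod.ringChar_zmod_n]; exact hp2)
      exact_mod_cast this
    rw [e2, zero_mul]
  have h2 := interval (p * q) g h1 h0 (2 * T + 1) (-(T : ℤ))
  have e3 : Ico (-(T : ℤ)) (-(T : ℤ) + ((2 * T + 1 : ℕ) : ℤ)) = Icc (-(T : ℤ)) T := by
    ext x
    simp only [mem_Ico, mem_Icc]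
    push_cast
    constructor
    · rintro ⟨h1, h2⟩
      exact ⟨h1, by omega⟩
    · rintro ⟨h1, h2⟩
      exact ⟨h1, by omega⟩
  rw [e3] at h2
  have e4 : ∀ a : ℤ, g (a : ZMod (p * q)) = ((jacobiSym a p : ℤ) : ℝ) * ((jacobiSym a q : ℤ) : ℝ) := by
    intro a
    rw [hg]
    simp only [map_intCast, Prod.fst_intCast, Prod.snd_intCast]
    rw [← jacobiSym.legendreSym.to_jacobiSym, ← jacobiSym.legendreSym.to_jacobiSym]
    rfl
  simp only [e4] at h2
  exact h2

/-- one term -/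
noncomputable def K (p : ℕ) (a b : ℤ) : ℝ :=
  if (p : ℤ) ∣ a - b then ((jacobiSym a p : ℤ) : ℝ) else 0

theorem jac_abs (a : ℤ) (p : ℕ) : |((jacobiSym a p : ℤ) : ℝ)| ≤ 1 := by
  rcases jacobiSym.trichotomy a p with h | h | h <;> rw [h] <;> simp

theorem cardI (T : ℕ) : ((Icc (-(T : ℤ)) T).card : ℝ) = 2 * (T : ℝ) + 1 := by
  rw [Int.card_Icc]
  have : ((T : ℤ) + 1 - -(T : ℤ)).toNat = 2 * T + 1 := by omega
  rw [this]
  push_cast
  ring

/-- the diagonal -/
theorem diag (p T : ℕ) (hp : p.Prime) :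
    ∑ a ∈ Icc (-(T : ℤ)) T, ∑ b ∈ Icc (-(T : ℤ)) T, K p a b * K p a b
      ≤ (2 * (T : ℝ) + 1) * ((2 * (T : ℝ) + 1) / p + 1) := by
  have h1 : ∀ a ∈ Icc (-(T : ℤ)) T, ∑ b ∈ Icc (-(T : ℤ)) T, K p a b * K p a b
      ≤ (2 * (T : ℝ) + 1) / p + 1 := by
    intro a _
    have h2 := (abs_le.1 (cnt T a p hp.pos)).2
    calc ∑ b ∈ Icc (-(T : ℤ)) T, K p a b * K p a b
        ≤ ∑ b ∈ Icc (-(T : ℤ)) T, (if (p : ℤ) ∣ a - b then (1 : ℝ) else 0) := by
          refine Finset.sum_le_sum (fun b _ => ?_)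
          rw [K]
          split_ifs with h
          · have := jac_abs a p
            rw [← abs_mul_abs_self]
            exact mul_le_one₀ this (abs_nonneg _) this
          · simp
      _ = (((Icc (-(T : ℤ)) T).filter (fun b => (p : ℤ) ∣ a - b)).card : ℝ) := by
          rw [Finset.sum_ite, Finset.sum_const_zero, add_zero, Finset.sum_const, nsmul_eq_mul,
            mul_one]
      _ ≤ _ := by linarith
  calc _ ≤ ∑ a ∈ Icc (-(T : ℤ)) T, ((2 * (T : ℝ) + 1) / p + 1) := Finset.sum_le_sum h1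
    _ = _ := by rw [Finset.sum_const, nsmul_eq_mul, cardI]

/-- off the diagonal -/
theorem off (p q T : ℕ) (hp : p.Prime) (hq : q.Prime) (hp2 : p ≠ 2) (hq2 : q ≠ 2) (hpq : p ≠ q) :
    ∑ a ∈ Icc (-(T : ℤ)) T, ∑ b ∈ Icc (-(T : ℤ)) T, K p a b * K q a b
      ≤ 2 * (2 * (T : ℝ) + 1) := by
  set N : ℝ := 2 * (T : ℝ) + 1 with hN
  have hN0 : 0 ≤ N := by positivity
  set m : ℕ := p * q with hm
  have hm0 : 0 < m := Nat.mul_pos hp.pos hq.pos
  have hm0' : (0 : ℝ) < m := by exact_mod_cast hm0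
  have hco : Nat.Coprime p q := (Nat.coprime_primes hp hq).2 hpq
  set G : ℤ → ℝ := fun a => ((jacobiSym a p : ℤ) : ℝ) * ((jacobiSym a q : ℤ) : ℝ) with hG
  have hG1 : ∀ a, |G a| ≤ 1 := by
    intro a
    rw [hG]
    simp only [abs_mul]
    exact mul_le_one₀ (jac_abs _ _) (abs_nonneg _) (jac_abs _ _)
  set c : ℤ → ℝ := fun a =>
    (((Icc (-(T : ℤ)) T).filter (fun b => (m : ℤ) ∣ a - b)).card : ℝ) with hc
  have h1 : ∀ a : ℤ, ∑ b ∈ Icc (-(T : ℤ)) T, K p a b * K q a b = G a * c a := by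
    intro a
    have h2 : ∀ b : ℤ, K p a b * K q a b = if (m : ℤ) ∣ a - b then G a else 0 := by
      intro b
      have h3 : (m : ℤ) ∣ a - b ↔ (p : ℤ) ∣ a - b ∧ (q : ℤ) ∣ a - b := by
        constructor
        · intro h
          rw [hm] at h
          push_cast at h
          exact ⟨(Dvd.intro _ rfl).trans h, (Dvd.intro_left _ rfl).trans h⟩
        · rintro ⟨h4, h5⟩
          rw [hm]
          push_cast
          exact IsCoprime.mul_dvd (Nat.isCoprime_iff_coprime.2 hco) h4 h5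
      rw [K, K]
      by_cases h4 : (p : ℤ) ∣ a - b
      · by_cases h5 : (q : ℤ) ∣ a - b
        · rw [if_pos h4, if_pos h5, if_pos (h3.2 ⟨h4, h5⟩)]
        · rw [if_pos h4, if_neg h5, if_neg (fun h => h5 (h3.1 h).2), mul_zero]
      · rw [if_neg h4, if_neg (fun h => h4 (h3.1 h).1), zero_mul]
    simp only [h2]
    rw [Finset.sum_ite, Finset.sum_const_zero, add_zero, Finset.sum_const, nsmul_eq_mul, mul_comm]
  simp only [h1]
  have h5 : ∑ a ∈ Icc (-(T : ℤ)) T, G a * c a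
      = ∑ a ∈ Icc (-(T : ℤ)) T, G a * (c a - N / m) + (N / m) * ∑ a ∈ Icc (-(T : ℤ)) T, G a := by
    rw [Finset.mul_sum, ← Finset.sum_add_distrib]
    refine Finset.sum_congr rfl (fun a _ => ?_)
    ring
  have h6 : ∑ a ∈ Icc (-(T : ℤ)) T, G a * (c a - N / m) ≤ N := by
    calc _ ≤ ∑ a ∈ Icc (-(T : ℤ)) T, (1 : ℝ) := by
          refine Finset.sum_le_sum (fun a _ => ?_)
          refine (le_abs_self _).trans ?_
          rw [abs_mul]
          exact mul_le_one₀ (hG1 a) (abs_nonneg _) (cnt T a m hm0)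
      _ = N := by rw [Finset.sum_const, nsmul_eq_mul, mul_one, cardI]
  have h7 : (N / m) * ∑ a ∈ Icc (-(T : ℤ)) T, G a ≤ N := by
    have h8 := (le_abs_self _).trans (charsum p q hp hq hp2 hq2 hpq T)
    calc (N / m) * ∑ a ∈ Icc (-(T : ℤ)) T, G a ≤ (N / m) * m :=
          mul_le_mul_of_nonneg_left h8 (by positivity)
      _ = N := by field_simp
  rw [h5]
  linarith

theorem card_PP (y : ℕ) : ((PP y).card : ℝ) ≤ y := by
  have h1 : PP y ⊆ Icc 1 y := by
    intro p hp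
    rw [PP, mem_filter, mem_range] at hp
    rw [mem_Icc]
    exact ⟨hp.2.1.one_lt.le, by omega⟩
  have h2 := Finset.card_le_card h1
  rw [Nat.card_Icc] at h2
  have h3 : (PP y).card ≤ y := by omega
  exact_mod_cast h3

/-- the second moment of the character sum -/
theorem chr : CHR := by
  intro y T
  set N : ℝ := 2 * (T : ℝ) + 1 with hN
  have hN0 : 0 ≤ N := by positivity
  have h1 : ∀ a b : ℤ, VV y a b ^ 2 = ∑ p ∈ PP y, ∑ q ∈ PP y, K p a b * K q a b := by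
    intro a b
    have h2 : VV y a b = ∑ p ∈ PP y, K p a b := by
      rw [VV, Finset.sum_filter]
      rfl
    rw [h2, sq, Finset.sum_mul_sum]
  simp only [h1]
  have h3 : ∑ a ∈ Icc (-(T : ℤ)) T, ∑ b ∈ Icc (-(T : ℤ)) T,
      ∑ p ∈ PP y, ∑ q ∈ PP y, K p a b * K q a b
      = ∑ p ∈ PP y, ∑ q ∈ PP y, ∑ a ∈ Icc (-(T : ℤ)) T, ∑ b ∈ Icc (-(T : ℤ)) T,
        K p a b * K q a b := by
    calc _ = ∑ a ∈ Icc (-(T : ℤ)) T, ∑ p ∈ PP y, ∑ b ∈ Icc (-(T : ℤ)) T,
          ∑ q ∈ PP y, K p a b * K q a b :=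
          Finset.sum_congr rfl (fun a _ => Finset.sum_comm)
      _ = ∑ p ∈ PP y, ∑ a ∈ Icc (-(T : ℤ)) T, ∑ b ∈ Icc (-(T : ℤ)) T,
          ∑ q ∈ PP y, K p a b * K q a b := Finset.sum_comm
      _ = ∑ p ∈ PP y, ∑ a ∈ Icc (-(T : ℤ)) T, ∑ q ∈ PP y, ∑ b ∈ Icc (-(T : ℤ)) T,
          K p a b * K q a b :=
          Finset.sum_congr rfl (fun p _ => Finset.sum_congr rfl (fun a _ => Finset.sum_comm))
      _ = _ := Finset.sum_congr rfl (fun p _ => Finset.sum_comm)
  rw [h3]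
  have hPP : ∀ p ∈ PP y, p.Prime ∧ p ≠ 2 := by
    intro p hp
    rw [PP, mem_filter] at hp
    exact hp.2
  have h4 : ∀ p ∈ PP y, ∀ q ∈ PP y, ∑ a ∈ Icc (-(T : ℤ)) T, ∑ b ∈ Icc (-(T : ℤ)) T,
      K p a b * K q a b ≤ (if p = q then N ^ 2 / p else 0) + 2 * N := by
    intro p hp q hq
    by_cases hpq : p = q
    · subst hpq
      rw [if_pos rfl]
      have h5 := diag p T (hPP p hp).1
      have h6 : N * (N / p + 1) = N ^ 2 / p + N := by ring
      rw [← hN, h6] at h5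
      linarith
    · rw [if_neg hpq, zero_add]
      exact off p q T (hPP p hp).1 (hPP q hq).1 (hPP p hp).2 (hPP q hq).2 hpq
  calc _ ≤ ∑ p ∈ PP y, ∑ q ∈ PP y, ((if p = q then N ^ 2 / (p : ℝ) else 0) + 2 * N) :=
        Finset.sum_le_sum (fun p hp => Finset.sum_le_sum (fun q hq => h4 p hp q hq))
    _ = N ^ 2 * LL y + ((PP y).card : ℝ) * (((PP y).card : ℝ) * (2 * N)) := by
        simp only [Finset.sum_add_distrib, Finset.sum_const, nsmul_eq_mul]
        congr 1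
        rw [LL, Finset.mul_sum]
        refine Finset.sum_congr rfl (fun p hp => ?_)
        rw [Finset.sum_ite_eq, if_pos hp]
        ring
    _ ≤ N ^ 2 * LL y + 3 * N * (y : ℝ) ^ 2 := by
        have h5 := card_PP y
        have h6 : (0 : ℝ) ≤ ((PP y).card : ℝ) := Nat.cast_nonneg _
        have h7 : ((PP y).card : ℝ) * ((PP y).card : ℝ) ≤ (y : ℝ) * y :=
          mul_le_mul h5 h5 h6 (Nat.cast_nonneg _)
        have h8 : 0 ≤ N * ((y : ℝ) * y) := by positivity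
        nlinarith [mul_le_mul_of_nonneg_left h7 hN0]

end Pool.Agent.W870.LSD
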